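import Pool.Agent.Q174.HF.Defs

/-! # Criteria for verifying concrete diagrams, moves and fronts -/

namespace Q174.HF

theorem thru_thru {n : ℕ} (d : Dart n) : thru (thru d) = d := by
  obtain ⟨v, k⟩ := d
  simp only [thru, Prod.mk.injEq, true_and]
  revert k; decide

theorem rot_ne {n : ℕ} (d : Dart n) : rot d ≠ d := by
  obtain ⟨v, k⟩ := d
  simp only [rot, ne_eq, Prod.mk.injEq, true_and]
  revert k; decide

/-- The involution coded by a list. -/
def mkOpp (n : ℕ) [NeZero n] (l : List ℕ) (d : Dart n) : Dart n :=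
  let c := l.getD (4 * d.1.val + d.2.val) 0
  (Fin.ofNat n (c / 4), Fin.ofNat 4 (c % 4))

/-- The list of half-edges `d, g d, g (g d), …` met on a trip of `k` steps. -/
def trip {n : ℕ} (o : Dart n → Dart n) : ℕ → Dart n → List (Dart n)
  | 0, _ => []
  | k + 1, d => d :: trip o k (thru (o d))

theorem trip_mem {n : ℕ} {o : Dart n → Dart n} (ho : ∀ d, o (o d) = d) (S : Set (Dart n))
    (h1 : ∀ d ∈ S, o d ∈ S) (h2 : ∀ d ∈ S, thru d ∈ S) (k : ℕ) :
    ∀ d, ∀ e ∈ trip o k d, (e ∈ S ↔ d ∈ S) := by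
  induction k with
  | zero => intro d e he; simp [trip] at he
  | succ k ih =>
    intro d e he
    rw [trip, List.mem_cons] at he
    rcases he with rfl | he
    · rfl
    · rw [ih _ e he]
      constructor
      · intro h
        have := h1 _ (h2 _ h)
        rwa [thru_thru, ho] at this
      · intro h
        exact h2 _ (h1 _ h)

theorem knot_of_trip {n : ℕ} {o : Dart n → Dart n} (ho : ∀ d, o (o d) = d) (d0 : Dart n)
    (k : ℕ) (h : ∀ a : Fin n, ∀ b : Fin 4, (a, b) ∈ trip o k d0 ∨ o (a, b) ∈ trip o k d0) :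
    ∀ S : Set (Dart n), S.Nonempty → (∀ d ∈ S, o d ∈ S) → (∀ d ∈ S, thru d ∈ S) →
      S = Set.univ := by
  intro S hS h1 h2
  have key : ∀ d, d ∈ S ↔ d0 ∈ S := by
    intro d
    rcases h d.1 d.2 with h3 | h3
    · exact trip_mem ho S h1 h2 k d0 d h3
    · have h4 := trip_mem ho S h1 h2 k d0 _ h3
      rw [← h4]
      constructor
      · intro h5; exact h1 _ h5
      · intro h5
        have := h1 _ h5
        change o (o d) ∈ S at this
        rwa [ho] at this
  obtain ⟨d, hd⟩ := hS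
  have h0 := (key d).1 hd
  ext e
  simp only [Set.mem_univ, iff_true]
  exact (key e).2 h0

/-- Face labels coded by a list. -/
def mkFace (n : ℕ) (l : List ℕ) (d : Dart n) : Fin (n + 2) :=
  Fin.ofNat (n + 2) (l.getD (4 * d.1.val + d.2.val) 0)

/-- A diagram coded by lists: `l` codes the involution and `f` the faces. -/
def mkDiagram (n : ℕ) [NeZero n] (l f : List ℕ)
    (h1 : ∀ a : Fin n, ∀ b : Fin 4, mkOpp n l (mkOpp n l (a, b)) = (a, b))
    (h2 : ∀ a : Fin n, ∀ b : Fin 4, mkOpp n l (a, b) ≠ (a, b))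
    (h3 : ∀ a : Fin n, ∀ b : Fin 4, (a, b) ∈ trip (mkOpp n l) (2 * n) (0, 0) ∨
      mkOpp n l (a, b) ∈ trip (mkOpp n l) (2 * n) (0, 0))
    (h4 : ∀ c : Fin (n + 2), ∃ a : Fin n, ∃ b : Fin 4, mkFace n f (a, b) = c)
    (h5 : ∀ a : Fin n, ∀ b : Fin 4, mkFace n f (rotBack (mkOpp n l (a, b))) =
      mkFace n f (a, b)) : Diagram where
  n := n
  opp := mkOpp n l
  opp_opp d := h1 d.1 d.2
  opp_ne d := h2 d.1 d.2
  knot := knot_of_trip (fun d => h1 d.1 d.2) _ _ h3
  planar _ := ⟨mkFace n f, fun c => by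
    obtain ⟨a, b, h⟩ := h4 c
    exact ⟨(a, b), h⟩, fun d => h5 d.1 d.2⟩

/-- The crossingless diagram. -/
def trivialDiagram : Diagram where
  n := 0
  opp d := d
  opp_opp d := rfl
  opp_ne d := d.1.elim0
  knot S hS := by
    obtain ⟨d, _⟩ := hS
    exact d.1.elim0
  planar h := absurd rfl h

/-! ### Erasing crossings -/

/-- Computing where a strand leads when crossings are erased. -/
def followN {n : ℕ} (o : Dart n → Dart n) (S : Fin n → Bool) : ℕ → Dart n → Option (Dart n)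
  | 0, _ => none
  | k + 1, a => if S (o a).1 then followN o S k (thru (o a)) else some (o a)

theorem follow_of_followN (D : Diagram) (S : Set (Fin D.n)) (s : Fin D.n → Bool)
    (hs : ∀ v, v ∈ S ↔ s v = true) (k : ℕ) :
    ∀ a b, followN D.opp s k a = some b → D.Follow S a b := by
  induction k with
  | zero => intro a b h; simp [followN] at h
  | succ k ih =>
    intro a b h
    rw [followN] at h
    split_ifs at h with h1
    · exact Diagram.Follow.pass a b ((hs _).2 h1) (ih _ _ h)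
    · simp only [Option.some.injEq] at h
      rw [← h]
      refine Diagram.Follow.stop a ?_
      rw [hs]
      exact h1

theorem erase_of_check (D E : Diagram) (S : Set (Fin D.n)) (s : Fin D.n → Bool)
    (hs : ∀ v, v ∈ S ↔ s v = true) (ι : Fin E.n → Fin D.n) (hι : Function.Injective ι)
    (hr : ∀ v, (∃ u, ι u = v) ↔ s v = false) (k : ℕ)
    (hf : ∀ a b, followN D.opp s k (ι a, b) = some (ι (E.opp (a, b)).1, (E.opp (a, b)).2)) :
    D.Erase S E := by
  refine ⟨fun d => (ι d.1, d.2), ?_, ?_, ?_, ?_, ?_⟩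
  · rintro ⟨a, b⟩ ⟨c, d⟩ h
    simp only [Prod.mk.injEq] at h
    rw [Prod.mk.injEq]
    exact ⟨hι h.1, h.2⟩
  · rintro ⟨v, k⟩
    simp only [Set.mem_range, Prod.exists, Prod.mk.injEq]
    rw [hs, Bool.not_eq_true, ← hr]
    constructor
    · rintro ⟨a, b, h1, h2⟩; exact ⟨a, h1⟩
    · rintro ⟨a, h⟩; exact ⟨a, k, h, rfl⟩
  · intro d; rfl
  · intro d; rfl
  · intro d
    exact follow_of_followN D S s hs k _ _ (hf d.1 d.2)

instance {n : ℕ} (d : Dart n) : Decidable (IsOver d) :=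
  inferInstanceAs (Decidable (d.2 = 1 ∨ d.2 = 3))

theorem R1_of_check {n m : ℕ} {o : Dart n → Dart n} {p : Dart m → Dart m}
    {h1 h2 h3 h4 h1' h2' h3' h4'} (x : Dart n) (hx : o x = rot x)
    (ι : Fin m → Fin n) (hι : ∀ a b, ι a = ι b → a = b)
    (hr : ∀ v, (∃ u, ι u = v) ↔ (v == x.1) = false) (k : ℕ)
    (hf : ∀ a b, followN o (fun v => v == x.1) k (ι a, b) =
      some (ι (p (a, b)).1, (p (a, b)).2)) :
    Diagram.R1 ⟨n, o, h1, h2, h3, h4⟩ ⟨m, p, h1', h2', h3', h4'⟩ := by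
  refine ⟨x, hx, erase_of_check ⟨n, o, h1, h2, h3, h4⟩ ⟨m, p, h1', h2', h3', h4'⟩ _
    (fun v => v == x.1) ?_ ι (fun a b => hι a b) hr k hf⟩
  intro v
  rw [Set.mem_singleton_iff, beq_iff_eq]

theorem R2_of_check {n m : ℕ} {o : Dart n → Dart n} {p : Dart m → Dart m}
    {h1 h2 h3 h4 h1' h2' h3' h4'} (x y : Dart n) (hxy : rotBack (o x) = y)
    (hyx : rotBack (o y) = x) (hne : x.1 ≠ y.1) (hx : IsOver x) (hx' : IsOver (o x))
    (ι : Fin m → Fin n) (hι : ∀ a b, ι a = ι b → a = b)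
    (hr : ∀ v, (∃ u, ι u = v) ↔ (v == x.1 || v == y.1) = false) (k : ℕ)
    (hf : ∀ a b, followN o (fun v => v == x.1 || v == y.1) k (ι a, b) =
      some (ι (p (a, b)).1, (p (a, b)).2)) :
    Diagram.R2 ⟨n, o, h1, h2, h3, h4⟩ ⟨m, p, h1', h2', h3', h4'⟩ := by
  refine ⟨x, y, hxy, hyx, hne, hx, hx', erase_of_check ⟨n, o, h1, h2, h3, h4⟩
    ⟨m, p, h1', h2', h3', h4'⟩ _ (fun v => v == x.1 || v == y.1) ?_ ι (fun a b => hι a b)
    hr k hf⟩
  intro v
  rw [Set.mem_insert_iff, Set.mem_singleton_iff, Bool.or_eq_true, beq_iff_eq, beq_iff_eq]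

/-! ### The third move -/

/-- Decidable version of `Diagram.leg`. -/
def legL {n : ℕ} (o : Dart n → Dart n) (T : List (Dart n)) (d : Dart n) : Dart n :=
  if thru d ∈ T then o (thru d) else d

theorem R3_of_check {n : ℕ} {o p : Dart n → Dart n} {h1 h2 h3 h4 h1' h2' h3' h4'}
    (x y z : Dart n) (hxy : rotBack (o x) = y) (hyz : rotBack (o y) = z)
    (hzx : rotBack (o z) = x) (e1 : x.1 ≠ y.1) (e2 : y.1 ≠ z.1) (e3 : z.1 ≠ x.1)
    (hx : IsOver x) (hx' : IsOver (o x))
    (hT : ∀ d ∈ [x, o x, y, o y, z, o z], p (thru d) = thru (o d))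
    (hN : ∀ a : Fin n, ∀ b : Fin 4, (a, b) ∉ [x, o x, y, o y, z, o z] →
      p (legL o [x, o x, y, o y, z, o z] (a, b)) =
        legL o [x, o x, y, o y, z, o z] (o (a, b))) :
    Diagram.R3 ⟨n, o, h1, h2, h3, h4⟩ ⟨n, p, h1', h2', h3', h4'⟩ := by
  have hmem : ∀ d : Dart n, d ∈ ({x, o x, y, o y, z, o z} : Set (Dart n)) ↔
      d ∈ [x, o x, y, o y, z, o z] := by
    intro d; simp
  have hleg : ∀ d : Dart n, Diagram.leg ⟨n, o, h1, h2, h3, h4⟩
      ({x, o x, y, o y, z, o z} : Set (Dart n)) d = legL o [x, o x, y, o y, z, o z] d := by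
    intro d
    unfold Diagram.leg legL
    by_cases h : thru d ∈ [x, o x, y, o y, z, o z]
    · rw [if_pos ((hmem _).2 h), if_pos h]
    · rw [if_neg (fun h' => h ((hmem _).1 h')), if_neg h]
  refine ⟨x, y, z, hxy, hyz, hzx, e1, e2, e3, hx, hx', Equiv.refl _, fun _ => rfl,
    fun _ => Iff.rfl, ?_, ?_⟩
  · intro d hd
    exact hT d ((hmem d).1 hd)
  · intro d hd
    have h := hN d.1 d.2 (fun h => hd ((hmem d).2 h))
    change p (Diagram.leg ⟨n, o, h1, h2, h3, h4⟩ _ d) =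
      Diagram.leg ⟨n, o, h1, h2, h3, h4⟩ _ (o d)
    rw [hleg, hleg]
    exact h

/-! ### Hardness -/

/-- No Reidemeister move which does not increase the number of crossings can be applied. -/
structure Stuck (D : Diagram) : Prop where
  r1 : ∀ d, D.opp d ≠ rot d
  r2 : ∀ x, IsOver x → IsOver (D.opp x) → D.next (D.next x) ≠ x
  r3 : ∀ x, IsOver x → IsOver (D.opp x) → D.next (D.next (D.next x)) ≠ x

theorem Stuck.not_R3 {D : Diagram} (h : Stuck D) (E : Diagram) : ¬ Diagram.R3 D E := by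
  rintro ⟨x, y, z, hxy, hyz, hzx, -, -, -, hx, hx', -⟩
  apply h.r3 x hx hx'
  rw [hxy, hyz, hzx]

theorem isOver_thru {n : ℕ} (d : Dart n) : IsOver (thru d) ↔ IsOver d := by
  obtain ⟨v, k⟩ := d
  simp only [IsOver, thru]
  revert k; decide

theorem rotBack_thru {n : ℕ} (d : Dart n) : rotBack (thru d) = thru (rotBack d) := by
  obtain ⟨v, k⟩ := d
  simp only [rotBack, thru, Prod.mk.injEq, true_and]
  revert k; decide

theorem rotBack_eq {n : ℕ} (d : Dart n) : rotBack d = rot (rot (rot d)) := by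
  obtain ⟨v, k⟩ := d
  simp only [rotBack, rot, Prod.mk.injEq, true_and]
  revert k; decide

theorem Stuck.not_R3' {D : Diagram} (h : Stuck D) (E : Diagram) : ¬ Diagram.R3 E D := by
  rintro ⟨x, y, z, hxy, hyz, hzx, -, -, -, hx, hx', φ, hrot, hover, hT, -⟩
  have hb : ∀ d, φ (rotBack d) = rotBack (φ d) := by
    intro d
    rw [rotBack_eq, rotBack_eq, hrot, hrot, hrot]
  have hn : ∀ a b, a ∈ ({x, E.opp x, y, E.opp y, z, E.opp z} : Set (Dart E.n)) →
      E.next a = b → D.next (φ (thru a)) = φ (thru b) := by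
    intro a b ha hab
    unfold Diagram.next at hab ⊢
    rw [hT a ha, ← hb, rotBack_thru, hab]
  apply h.r3 (φ (thru x))
  · rw [hover, isOver_thru]; exact hx
  · rw [hT x (by simp), hover, isOver_thru]; exact hx'
  · rw [hn x y (by simp) hxy, hn y z (by simp) hyz, hn z x (by simp) hzx]

theorem Stuck.not_R1 {D : Diagram} (h : Stuck D) (E : Diagram) : ¬ Diagram.R1 D E := by
  rintro ⟨d, hd, -⟩
  exact h.r1 d hd

theorem Stuck.not_R2 {D : Diagram} (h : Stuck D) (E : Diagram) : ¬ Diagram.R2 D E := by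
  rintro ⟨x, y, hxy, hyx, -, hx, hx', -⟩
  apply h.r2 x hx hx'
  rw [hxy, hyx]

theorem erase_lt {D E : Diagram} {S : Set (Fin D.n)} (hS : S.Nonempty) (h : D.Erase S E) :
    E.n < D.n := by
  obtain ⟨φ, hinj, hr, -⟩ := h
  obtain ⟨v, hv⟩ := hS
  have h1 : Fintype.card (Dart E.n) < Fintype.card (Dart D.n) := by
    refine Fintype.card_lt_of_injective_of_notMem φ hinj (b := (v, 0)) ?_
    rw [hr]
    simpa using hv
  simp only [Fintype.card_prod, Fintype.card_fin] at h1
  omega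

theorem Stuck.move_lt {D : Diagram} (h : Stuck D) {E : Diagram} (hm : Diagram.Move D E) :
    D.n < E.n := by
  rcases hm with hm | hm | hm | hm | hm | hm
  · exact absurd hm (h.not_R1 E)
  · obtain ⟨d, _, he⟩ := hm
    exact erase_lt (Set.singleton_nonempty _) he
  · exact absurd hm (h.not_R2 E)
  · obtain ⟨x, y, _, _, _, _, _, he⟩ := hm
    exact erase_lt ⟨x.1, by simp⟩ he
  · exact absurd hm (h.not_R3 E)
  · exact absurd hm (h.not_R3' E)

theorem Stuck.weaklyHard {D : Diagram} (h : Stuck D) (hn : D.n ≠ 0) (hu : D.IsUnknot) :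
    D.WeaklyHard := by
  refine ⟨hu, ?_⟩
  rintro s m ⟨h0, hs, hm⟩
  have hm0 : 0 < m := by
    rcases Nat.eq_zero_or_pos m with rfl | h1
    · rw [h0] at hm; exact absurd hm hn
    · exact h1
  refine ⟨0, hm0, ?_⟩
  have h1 := hs 0 hm0
  rw [h0] at h1 ⊢
  exact h.move_lt h1

theorem Stuck.stronglyHard {D : Diagram} (h : Stuck D) (hn : D.n ≠ 0) (hu : D.IsUnknot) :
    D.StronglyHard := by
  refine ⟨hu, ?_⟩
  rintro s m ⟨h0, hs, hm⟩
  have hm0 : 0 < m := by
    rcases Nat.eq_zero_or_pos m with rfl | h1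
    · rw [h0] at hm; exact absurd hm hn
    · exact h1
  refine ⟨1, hm0, ?_⟩
  have h1 := hs 0 hm0
  rw [h0] at h1
  exact h.move_lt h1

theorem isUnknot_of_move {D E : Diagram} (h : Diagram.Move D E) (hE : E.IsUnknot) :
    D.IsUnknot := by
  obtain ⟨s, m, h0, hs, hm⟩ := hE
  refine ⟨fun i => match i with | 0 => D | i + 1 => s i, m + 1, rfl, ?_, hm⟩
  intro i hi
  cases i with
  | zero => change Diagram.Move D (s 0); rw [h0]; exact h
  | succ i => exact hs i (by omega)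

theorem isUnknot_trivial : trivialDiagram.IsUnknot :=
  ⟨fun _ => trivialDiagram, 0, rfl, fun i hi => absurd hi (Nat.not_lt_zero i), rfl⟩

end Q174.HF
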