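import Pool.Agent.Q174.HF.Check

/-! # The diagrams of an unknotting sequence -/

set_option maxRecDepth 100000

namespace Q174.HF.Ex

/-- Diagram number 0 of the sequence. -/
def D0 : Diagram := mkDiagram 12 [33, 32, 14, 6, 17, 29, 3, 10, 19, 18, 7, 13, 22, 11, 2, 47, 21, 4, 9, 8, 25, 16, 12, 26, 30, 20, 23, 38, 34, 5, 24, 41, 1, 0, 28, 44, 43, 42, 27, 46, 45, 31, 37, 36, 35, 40, 39, 15]
  [0, 1, 2, 3, 4, 3, 2, 5, 6, 5, 2, 7, 7, 2, 1, 8, 4, 5, 6, 7, 4, 7, 8, 9, 4, 9, 8, 10, 3, 4, 10, 11, 0, 3, 11, 1, 12, 10, 8, 13, 11, 10, 12, 13, 11, 13, 8, 1]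
  (by decide) (by decide) (by decide) (by decide) (by decide)

/-- Diagram number 1 of the sequence. -/
def D1 : Diagram := mkDiagram 14 [33, 52, 14, 6, 17, 29, 3, 10, 19, 18, 7, 13, 22, 11, 2, 55, 21, 4, 9, 8, 25, 16, 12, 26, 30, 20, 23, 38, 34, 5, 24, 41, 50, 0, 28, 44, 43, 42, 27, 46, 45, 31, 37, 36, 35, 40, 39, 51, 54, 53, 32, 47, 1, 49, 48, 15]
  [0, 1, 2, 3, 4, 3, 2, 5, 6, 5, 2, 7, 7, 2, 1, 8, 4, 5, 6, 7, 4, 7, 8, 9, 4, 9, 8, 10, 3, 4, 10, 11, 0, 3, 11, 12, 13, 10, 8, 14, 11, 10, 13, 14, 11, 14, 8, 12, 15, 0, 12, 8, 0, 15, 8, 1]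
  (by decide) (by decide) (by decide) (by decide) (by decide)

/-- Diagram number 2 of the sequence. -/
def D2 : Diagram := mkDiagram 14 [44, 52, 14, 6, 17, 29, 3, 10, 19, 18, 7, 13, 22, 11, 2, 55, 21, 4, 9, 8, 25, 16, 12, 26, 30, 20, 23, 38, 50, 5, 24, 41, 54, 46, 48, 39, 43, 42, 27, 35, 51, 31, 37, 36, 0, 49, 33, 53, 34, 45, 28, 40, 1, 47, 32, 15]
  [0, 1, 2, 3, 4, 3, 2, 5, 6, 5, 2, 7, 7, 2, 1, 8, 4, 5, 6, 7, 4, 7, 8, 9, 4, 9, 8, 10, 3, 4, 10, 11, 12, 13, 14, 8, 15, 10, 8, 14, 11, 10, 15, 14, 3, 13, 12, 0, 13, 3, 11, 14, 0, 12, 8, 1]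
  (by decide) (by decide) (by decide) (by decide) (by decide)

/-- Diagram number 3 of the sequence. -/
def D3 : Diagram := mkDiagram 14 [44, 52, 14, 6, 17, 41, 3, 10, 19, 18, 7, 13, 22, 11, 2, 55, 21, 4, 9, 8, 25, 16, 12, 26, 50, 20, 23, 38, 34, 43, 48, 36, 54, 46, 28, 39, 31, 51, 27, 35, 45, 5, 49, 29, 0, 40, 33, 53, 30, 42, 24, 37, 1, 47, 32, 15]
  [0, 1, 2, 3, 4, 3, 2, 5, 6, 5, 2, 7, 7, 2, 1, 8, 4, 5, 6, 7, 4, 7, 8, 9, 4, 9, 8, 10, 11, 12, 13, 14, 15, 11, 14, 8, 13, 10, 8, 14, 3, 4, 12, 11, 3, 11, 15, 0, 12, 4, 10, 13, 0, 15, 8, 1]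
  (by decide) (by decide) (by decide) (by decide) (by decide)

/-- Diagram number 4 of the sequence. -/
def D4 : Diagram := mkDiagram 14 [44, 52, 14, 6, 17, 41, 3, 10, 19, 18, 7, 13, 22, 11, 2, 55, 21, 4, 9, 8, 38, 16, 12, 50, 30, 36, 48, 31, 34, 43, 24, 27, 54, 46, 28, 51, 25, 42, 20, 49, 45, 5, 37, 29, 0, 40, 33, 53, 26, 39, 23, 35, 1, 47, 32, 15]
  [0, 1, 2, 3, 4, 3, 2, 5, 6, 5, 2, 7, 7, 2, 1, 8, 4, 5, 6, 7, 4, 7, 8, 9, 10, 11, 12, 13, 14, 10, 13, 12, 15, 14, 12, 8, 10, 4, 9, 11, 3, 4, 10, 14, 3, 14, 15, 0, 11, 9, 8, 12, 0, 15, 8, 1]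
  (by decide) (by decide) (by decide) (by decide) (by decide)

/-- Diagram number 5 of the sequence. -/
def D5 : Diagram := mkDiagram 12 [36, 44, 14, 6, 17, 33, 3, 10, 19, 18, 7, 13, 22, 11, 2, 47, 21, 4, 9, 8, 30, 16, 12, 42, 46, 38, 40, 43, 35, 34, 20, 41, 37, 5, 29, 28, 0, 32, 25, 45, 26, 31, 23, 27, 1, 39, 24, 15]
  [0, 1, 2, 3, 4, 3, 2, 5, 6, 5, 2, 7, 7, 2, 1, 8, 4, 5, 6, 7, 4, 7, 8, 9, 10, 11, 12, 8, 13, 4, 9, 11, 3, 4, 13, 11, 3, 11, 10, 0, 11, 9, 8, 12, 0, 10, 8, 1]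
  (by decide) (by decide) (by decide) (by decide) (by decide)

/-- Diagram number 6 of the sequence. -/
def D6 : Diagram := mkDiagram 10 [32, 36, 14, 6, 17, 29, 3, 10, 19, 18, 7, 13, 22, 11, 2, 39, 21, 4, 9, 8, 26, 16, 12, 38, 31, 30, 20, 34, 33, 5, 25, 24, 0, 28, 27, 37, 1, 35, 23, 15]
  [0, 1, 2, 3, 4, 3, 2, 5, 6, 5, 2, 7, 7, 2, 1, 8, 4, 5, 6, 7, 4, 7, 8, 9, 10, 4, 9, 11, 3, 4, 10, 11, 3, 11, 9, 0, 0, 9, 8, 1]
  (by decide) (by decide) (by decide) (by decide) (by decide)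

/-- Diagram number 7 of the sequence. -/
def D7 : Diagram := mkDiagram 10 [32, 23, 22, 6, 17, 29, 3, 10, 19, 18, 7, 39, 26, 37, 20, 35, 38, 4, 9, 8, 14, 36, 2, 1, 31, 30, 12, 34, 33, 5, 25, 24, 0, 28, 27, 15, 21, 13, 16, 11]
  [0, 1, 2, 3, 4, 3, 2, 5, 6, 5, 2, 7, 4, 8, 0, 9, 4, 5, 6, 7, 8, 2, 1, 0, 10, 4, 9, 11, 3, 4, 10, 11, 3, 11, 9, 0, 8, 4, 7, 2]
  (by decide) (by decide) (by decide) (by decide) (by decide)

/-- Diagram number 8 of the sequence. -/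
def D8 : Diagram := mkDiagram 8 [13, 21, 28, 6, 15, 14, 3, 31, 18, 29, 24, 27, 30, 0, 5, 4, 23, 22, 8, 26, 25, 1, 17, 16, 10, 20, 19, 11, 2, 9, 12, 7]
  [0, 1, 2, 3, 4, 3, 2, 5, 0, 1, 6, 7, 0, 3, 4, 5, 8, 0, 7, 9, 1, 0, 8, 9, 1, 9, 7, 6, 1, 0, 5, 2]
  (by decide) (by decide) (by decide) (by decide) (by decide)

/-- Diagram number 9 of the sequence. -/
def D9 : Diagram := mkDiagram 6 [9, 17, 20, 6, 11, 10, 3, 23, 22, 0, 5, 4, 19, 18, 15, 14, 21, 1, 13, 12, 2, 16, 8, 7]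
  [0, 1, 2, 3, 4, 3, 2, 5, 0, 3, 4, 5, 6, 0, 7, 0, 1, 0, 6, 0, 1, 0, 5, 2]
  (by decide) (by decide) (by decide) (by decide) (by decide)

/-- Diagram number 10 of the sequence. -/
def D10 : Diagram := mkDiagram 5 [9, 13, 16, 6, 11, 10, 3, 19, 18, 0, 5, 4, 17, 1, 15, 14, 2, 12, 8, 7]
  [0, 1, 2, 3, 4, 3, 2, 5, 0, 3, 4, 5, 1, 0, 6, 0, 1, 0, 5, 2]
  (by decide) (by decide) (by decide) (by decide) (by decide)

/-- Diagram number 11 of the sequence. -/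
def D11 : Diagram := mkDiagram 4 [9, 13, 12, 6, 11, 10, 3, 15, 14, 0, 5, 4, 2, 1, 8, 7]
  [0, 1, 2, 3, 4, 3, 2, 5, 0, 3, 4, 5, 1, 0, 5, 2]
  (by decide) (by decide) (by decide) (by decide) (by decide)

/-- Diagram number 12 of the sequence. -/
def D12 : Diagram := mkDiagram 2 [7, 6, 3, 2, 5, 4, 1, 0]
  [0, 1, 2, 1, 3, 1, 0, 1]
  (by decide) (by decide) (by decide) (by decide) (by decide)

/-- Diagram number 13 of the sequence. -/
def D13 : Diagram := mkDiagram 1 [1, 0, 3, 2]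
  [0, 1, 2, 1]
  (by decide) (by decide) (by decide) (by decide) (by decide)

def iota1 : Fin 12 → Fin 14 := ![0, 1, 2, 3, 4, 5, 6, 7, 8, 9, 10, 11]

theorem step0 : Diagram.R2 D1 D0 :=
  R2_of_check (n := 14) (m := 12) (13, 1) (12, 0) (by decide) (by decide) (by decide) (by decide)
    (by decide) iota1 (by decide) (by decide) 8 (by decide)

theorem step1 : Diagram.R3 D1 D2 :=
  R3_of_check (n := 14) (11, 3) (12, 2) (8, 3) (by decide) (by decide) (by decide) (by decide)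
    (by decide) (by decide) (by decide) (by decide) (by decide) (by decide)

theorem step2 : Diagram.R3 D2 D3 :=
  R3_of_check (n := 14) (7, 3) (10, 0) (12, 2) (by decide) (by decide) (by decide) (by decide)
    (by decide) (by decide) (by decide) (by decide) (by decide) (by decide)

theorem step3 : Diagram.R3 D3 D4 :=
  R3_of_check (n := 14) (9, 1) (12, 2) (6, 3) (by decide) (by decide) (by decide) (by decide)
    (by decide) (by decide) (by decide) (by decide) (by decide) (by decide)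

def iota4 : Fin 12 → Fin 14 := ![0, 1, 2, 3, 4, 5, 8, 9, 10, 11, 12, 13]

theorem step4 : Diagram.R2 D4 D5 :=
  R2_of_check (n := 14) (m := 12) (6, 3) (7, 2) (by decide) (by decide) (by decide) (by decide)
    (by decide) iota4 (by decide) (by decide) 8 (by decide)

def iota5 : Fin 10 → Fin 12 := ![0, 1, 2, 3, 4, 5, 7, 8, 9, 11]

theorem step5 : Diagram.R2 D5 D6 :=
  R2_of_check (n := 12) (m := 10) (10, 3) (6, 2) (by decide) (by decide) (by decide) (by decide)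
    (by decide) iota5 (by decide) (by decide) 8 (by decide)

theorem step6 : Diagram.R3 D6 D7 :=
  R3_of_check (n := 10) (3, 3) (9, 2) (5, 2) (by decide) (by decide) (by decide) (by decide)
    (by decide) (by decide) (by decide) (by decide) (by decide) (by decide)

def iota7 : Fin 8 → Fin 10 := ![1, 2, 3, 4, 6, 7, 8, 9]

theorem step7 : Diagram.R2 D7 D8 :=
  R2_of_check (n := 10) (m := 8) (0, 1) (5, 2) (by decide) (by decide) (by decide) (by decide)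
    (by decide) iota7 (by decide) (by decide) 8 (by decide)

def iota8 : Fin 6 → Fin 8 := ![0, 1, 3, 4, 5, 7]

theorem step8 : Diagram.R2 D8 D9 :=
  R2_of_check (n := 8) (m := 6) (6, 3) (2, 2) (by decide) (by decide) (by decide) (by decide)
    (by decide) iota8 (by decide) (by decide) 8 (by decide)

def iota9 : Fin 5 → Fin 6 := ![0, 1, 2, 4, 5]

theorem step9 : Diagram.R1 D9 D10 :=
  R1_of_check (n := 6) (m := 5) (3, 2) (by decide) iota9 (by decide) (by decide) 8 (by decide)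

def iota10 : Fin 4 → Fin 5 := ![0, 1, 2, 4]

theorem step10 : Diagram.R1 D10 D11 :=
  R1_of_check (n := 5) (m := 4) (3, 2) (by decide) iota10 (by decide) (by decide) 8 (by decide)

def iota11 : Fin 2 → Fin 4 := ![1, 2]

theorem step11 : Diagram.R2 D11 D12 :=
  R2_of_check (n := 4) (m := 2) (0, 1) (3, 0) (by decide) (by decide) (by decide) (by decide)
    (by decide) iota11 (by decide) (by decide) 8 (by decide)

def iota12 : Fin 1 → Fin 2 := ![1]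

theorem step12 : Diagram.R1 D12 D13 :=
  R1_of_check (n := 2) (m := 1) (0, 2) (by decide) iota12 (by decide) (by decide) 8 (by decide)

theorem step13 : Diagram.R1 D13 trivialDiagram :=
  R1_of_check (n := 1) (m := 0) (0, 0) (by decide) Fin.elim0 (by decide) (by decide) 8 (by decide)

theorem isUnknot : D0.IsUnknot :=
  isUnknot_of_move (Or.inr (Or.inr (Or.inr (Or.inl step0)))) <|
  isUnknot_of_move (Or.inr <| Or.inr <| Or.inr <| Or.inr <| Or.inl step1) <|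
  isUnknot_of_move (Or.inr <| Or.inr <| Or.inr <| Or.inr <| Or.inl step2) <|
  isUnknot_of_move (Or.inr <| Or.inr <| Or.inr <| Or.inr <| Or.inl step3) <|
  isUnknot_of_move (Or.inr <| Or.inr <| Or.inl step4) <|
  isUnknot_of_move (Or.inr <| Or.inr <| Or.inl step5) <|
  isUnknot_of_move (Or.inr <| Or.inr <| Or.inr <| Or.inr <| Or.inl step6) <|
  isUnknot_of_move (Or.inr <| Or.inr <| Or.inl step7) <|
  isUnknot_of_move (Or.inr <| Or.inr <| Or.inl step8) <|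
  isUnknot_of_move (Or.inl step9) <|
  isUnknot_of_move (Or.inl step10) <|
  isUnknot_of_move (Or.inr <| Or.inr <| Or.inl step11) <|
  isUnknot_of_move (Or.inl step12) <|
  isUnknot_of_move (Or.inl step13) <|
  isUnknot_trivial

theorem stuck : Stuck D0 := by
  refine ⟨?_, ?_, ?_⟩
  · rintro ⟨a, b⟩; revert a b; decide
  · rintro ⟨a, b⟩; revert a b; decide
  · rintro ⟨a, b⟩; revert a b; decide

end Q174.HF.Ex
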