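import Mathlib

/-!
# Knot diagrams on the sphere, Reidemeister moves, and fronts

## Knot diagrams

A knot diagram on the sphere with `n ≥ 1` crossings, up to (orientation preserving)
isotopy of the sphere, is recorded by its `4n` half-edges.  The four half-edges at a
crossing `v` are `(v, 0), (v, 1), (v, 2), (v, 3)` in counterclockwise order;
`(v, 0), (v, 2)` belong to the strand passing under, `(v, 1), (v, 3)` to the strand
passing over.  The involution `opp` tells which half-edges are joined by the edges of the
diagram.  For `n = 0` the only knot diagram is the crossingless circle.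

## Fronts

A generic front is recorded by the sequence, from left to right, of its singular points
(left cusps, crossings and right cusps), with the heights at which they occur.
-/

namespace Q174.HF

/-- The half-edges of a diagram with `n` crossings. -/
abbrev Dart (n : ℕ) : Type := Fin n × Fin 4

/-- The next half-edge at the same crossing, counterclockwise. -/
def rot {n : ℕ} (d : Dart n) : Dart n := (d.1, d.2 + 1)

/-- The next half-edge at the same crossing, clockwise. -/
def rotBack {n : ℕ} (d : Dart n) : Dart n := (d.1, d.2 + 3)

/-- The opposite half-edge at the same crossing (same strand). -/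
def thru {n : ℕ} (d : Dart n) : Dart n := (d.1, d.2 + 2)

/-- The half-edge belongs to the strand passing over at its crossing. -/
def IsOver {n : ℕ} (d : Dart n) : Prop := d.2 = 1 ∨ d.2 = 3

/-- A knot diagram on the sphere, up to isotopy of the sphere.  -/
structure Diagram where
  /-- the number of crossings -/
  n : ℕ
  /-- the other half-edge of the same edge -/
  opp : Dart n → Dart n
  opp_opp : ∀ d, opp (opp d) = d
  opp_ne : ∀ d, opp d ≠ d
  /-- the diagram has one component (travelling along the diagram one meets every
  half-edge) -/
  knot : ∀ S : Set (Dart n), S.Nonempty → (∀ d ∈ S, opp d ∈ S) → (∀ d ∈ S, thru d ∈ S) →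
    S = Set.univ
  /-- the diagram lies on the sphere: there are (at least) `n + 2` faces.  The face to the
  left of a half-edge `d` (looking away from its crossing) is also the face to the left of
  `rotBack (opp d)`. -/
  planar : n ≠ 0 → ∃ f : Dart n → Fin (n + 2), Function.Surjective f ∧
    ∀ d, f (rotBack (opp d)) = f d

namespace Diagram

/-- The next half-edge on the boundary of the face to the left of `d`. -/
def next (D : Diagram) (d : Dart D.n) : Dart D.n := rotBack (D.opp d)

/-- Leaving along the half-edge `a` and passing straight through crossings belonging to
`S`, one arrives along the half-edge `b` at a crossing not belonging to `S`. -/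
inductive Follow (D : Diagram) (S : Set (Fin D.n)) : Dart D.n → Dart D.n → Prop
  | stop (a : Dart D.n) : (D.opp a).1 ∉ S → Follow D S a (D.opp a)
  | pass (a b : Dart D.n) : (D.opp a).1 ∈ S → Follow D S (thru (D.opp a)) b → Follow D S a b

/-- `E` is (up to isotopy) the diagram obtained from `D` by erasing the crossings in `S`,
i.e. by forgetting these crossings while both strands run straight through them. -/
def Erase (D : Diagram) (S : Set (Fin D.n)) (E : Diagram) : Prop :=
  ∃ φ : Dart E.n → Dart D.n, Function.Injective φ ∧
    (∀ d, d ∈ Set.range φ ↔ d.1 ∉ S) ∧
    (∀ d, φ (rot d) = rot (φ d)) ∧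
    (∀ d, IsOver (φ d) ↔ IsOver d) ∧
    ∀ d, Follow D S (φ d) (φ (E.opp d))

/-- First Reidemeister move, removing a crossing: `D` has a face with one edge, whose
crossing is erased. -/
def R1 (D E : Diagram) : Prop :=
  ∃ d : Dart D.n, D.opp d = rot d ∧ D.Erase {d.1} E

/-- Second Reidemeister move, removing two crossings: `D` has a face with two edges and two
different corners, one of whose edges passes over at both ends (so that the other one
passes under at both ends); the two crossings are erased. -/
def R2 (D E : Diagram) : Prop :=
  ∃ x y : Dart D.n, D.next x = y ∧ D.next y = x ∧ x.1 ≠ y.1 ∧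
    IsOver x ∧ IsOver (D.opp x) ∧ D.Erase {x.1, y.1} E

open Classical in
/-- For the set `T` of the six half-edges forming the sides of a triangle: a half-edge `d`
whose opposite half-edge at the same crossing lies in `T` is replaced by the other end of
that side; all other half-edges are kept. -/
noncomputable def leg (D : Diagram) (T : Set (Dart D.n)) (d : Dart D.n) : Dart D.n :=
  if thru d ∈ T then D.opp (thru d) else d

/-- Third Reidemeister move: `D` has a face with three edges and three different corners,
one of whose edges passes over at both ends.  On each of the three strands forming the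
triangle the order of the two crossings is exchanged: a strand which ran
`P - (thru x) u (x) - (opp x) v (thru (opp x)) - Q` now runs
`P - (opp x) v (thru (opp x)) - (thru x) u (x) - Q`. -/
def R3 (D E : Diagram) : Prop :=
  ∃ x y z : Dart D.n, D.next x = y ∧ D.next y = z ∧ D.next z = x ∧
    x.1 ≠ y.1 ∧ y.1 ≠ z.1 ∧ z.1 ≠ x.1 ∧ IsOver x ∧ IsOver (D.opp x) ∧
    ∃ φ : Dart D.n ≃ Dart E.n,
      (∀ d, φ (rot d) = rot (φ d)) ∧ (∀ d, IsOver (φ d) ↔ IsOver d) ∧
      (∀ d ∈ ({x, D.opp x, y, D.opp y, z, D.opp z} : Set (Dart D.n)),
        E.opp (φ (thru d)) = φ (thru (D.opp d))) ∧
      (∀ d ∉ ({x, D.opp x, y, D.opp y, z, D.opp z} : Set (Dart D.n)),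
        E.opp (φ (D.leg {x, D.opp x, y, D.opp y, z, D.opp z} d)) =
          φ (D.leg {x, D.opp x, y, D.opp y, z, D.opp z} (D.opp d)))

/-- `E` arises from `D` by one Reidemeister move (up to isotopy of the sphere). -/
def Move (D E : Diagram) : Prop :=
  R1 D E ∨ R1 E D ∨ R2 D E ∨ R2 E D ∨ R3 D E ∨ R3 E D

/-- `s 0, …, s m` is an unknotting Reidemeister sequence (on the sphere) starting at `D`:
consecutive diagrams differ by one Reidemeister move and `s m` is crossingless. -/
def UnknottingSequence (D : Diagram) (s : ℕ → Diagram) (m : ℕ) : Prop :=
  s 0 = D ∧ (∀ i < m, Move (s i) (s (i + 1))) ∧ (s m).n = 0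

/-- `D` is a diagram of the unknot. -/
def IsUnknot (D : Diagram) : Prop := ∃ s m, UnknottingSequence D s m

/-- `D` is a weakly hard diagram of the unknot (on the sphere): every unknotting sequence
has a step which increases the number of crossings. -/
def WeaklyHard (D : Diagram) : Prop :=
  IsUnknot D ∧ ∀ s m, UnknottingSequence D s m → ∃ i < m, (s i).n < (s (i + 1)).n

/-- `D` is a strongly hard diagram of the unknot (on the sphere): every unknotting sequence
contains a diagram with more crossings than `D`. -/
def StronglyHard (D : Diagram) : Prop :=
  IsUnknot D ∧ ∀ s m, UnknottingSequence D s m → ∃ i ≤ m, D.n < (s i).n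

/-- `D` is composite: its crossings fall into two nonempty sets joined by exactly two edges
(equivalently, some circle meets the diagram in exactly two points and has crossings on
both sides). -/
def IsComposite (D : Diagram) : Prop :=
  ∃ A : Set (Fin D.n), A.Nonempty ∧ Aᶜ.Nonempty ∧
    {d : Dart D.n | d.1 ∈ A ∧ (D.opp d).1 ∉ A}.ncard = 2

/-- `D` is prime. -/
def IsPrime (D : Diagram) : Prop := ¬ D.IsComposite

end Diagram

/-! ## Fronts -/

/-- The singular points of a generic front.  The strands of the front over a generic
`x`-coordinate are numbered `0, 1, 2, …` from bottom to top. -/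
inductive Event
  /-- a left cusp, at which two new strands number `i` and `i + 1` begin -/
  | left (i : ℕ)
  /-- a crossing of the strands number `i` and `i + 1` -/
  | cross (i : ℕ)
  /-- a right cusp, at which the strands number `i` and `i + 1` end -/
  | right (i : ℕ)
  deriving DecidableEq

/-- Half-edges of a front: `(e, k)` is a half-edge at the singular point number `e`, namely
the upper right one for `k = 0`, the upper left one for `k = 1`, the lower left one for
`k = 2` and the lower right one for `k = 3` (counterclockwise order).  A crossing has all
four, a left cusp has `0, 3` and a right cusp has `1, 2`. -/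
abbrev HE : Type := ℕ × Fin 4

/-- Sweeping over a front from left to right.  `Sweep e w s l` says: if the singular points
still to come are those in `w`, numbered from `e` on, and if the half-edges from which the
present strands come are, from bottom to top, those in `s`, then `l` is the list of all strand
segments (each given by its left and its right half-edge) that end at the singular points
still to come.  After the last singular point no strand is left. -/
inductive Sweep : ℕ → List Event → List HE → List (HE × HE) → Prop
  | done (e : ℕ) : Sweep e [] [] []
  | left (e i : ℕ) (w : List Event) (s t : List HE) (l : List (HE × HE)) : s.length = i →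
      Sweep (e + 1) w (s ++ (e, 3) :: (e, 0) :: t) l → Sweep e (.left i :: w) (s ++ t) l
  | cross (e i : ℕ) (w : List Event) (s t : List HE) (a b : HE) (l : List (HE × HE)) :
      s.length = i → Sweep (e + 1) w (s ++ (e, 3) :: (e, 0) :: t) l →
      Sweep e (.cross i :: w) (s ++ a :: b :: t) ((a, (e, 2)) :: (b, (e, 1)) :: l)
  | right (e i : ℕ) (w : List Event) (s t : List HE) (a b : HE) (l : List (HE × HE)) :
      s.length = i → Sweep (e + 1) w (s ++ t) l →
      Sweep e (.right i :: w) (s ++ a :: b :: t) ((a, (e, 2)) :: (b, (e, 1)) :: l)

/-- The singular point number `e` is a crossing. -/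
def IsCrossing (w : List Event) (e : ℕ) : Prop := ∃ i, w[e]? = some (.cross i)

open Classical in
/-- Passing through a singular point: the half-edge along which one leaves the singular
point after having arrived along `h`.  A crossing is passed straight, at a cusp one
continues on its other branch. -/
noncomputable def passThru (w : List Event) (h : HE) : HE :=
  if IsCrossing w h.1 then (h.1, h.2 + 2) else (h.1, 3 - h.2)

/-- `a` and `b` are the two half-edges of a strand segment. -/
def Seg (l : List (HE × HE)) (a b : HE) : Prop := (a, b) ∈ l ∨ (b, a) ∈ l

/-- `w` is the front of a Legendrian knot, with strand segments `l`. -/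
structure IsKnotFront (w : List Event) (l : List (HE × HE)) : Prop where
  swept : Sweep 0 w [] l
  nonempty : w ≠ []
  /-- the front has one component (travelling along the front one meets every half-edge) -/
  knot : ∀ S : Set HE, (∃ a b, Seg l a b ∧ a ∈ S) → (∀ a b, Seg l a b → a ∈ S → b ∈ S) →
    (∀ a b, Seg l a b → a ∈ S → passThru w a ∈ S) → ∀ a b, Seg l a b → a ∈ S

/-- Leaving along the half-edge `a` and running through cusps only, one arrives along the
half-edge `b` at a crossing. -/
inductive FollowFront (w : List Event) (l : List (HE × HE)) : HE → HE → Prop
  | stop (a b : HE) : Seg l a b → IsCrossing w b.1 → FollowFront w l a b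
  | pass (a b c : HE) : Seg l a b → ¬ IsCrossing w b.1 → FollowFront w l (passThru w b) c →
      FollowFront w l a c

/-- `D` is (up to isotopy) the smooth resolution of the front `w` with strand segments `l`:
the cusps are smoothed and at every crossing the strand with the more negative slope (with
half-edges upper left and lower right) passes over. -/
def IsResolution (w : List Event) (l : List (HE × HE)) (D : Diagram) : Prop :=
  ∃ φ : Dart D.n → HE, Function.Injective φ ∧
    (∀ h : HE, h ∈ Set.range φ ↔ IsCrossing w h.1) ∧
    (∀ d, φ (rot d) = ((φ d).1, (φ d).2 + 1)) ∧
    (∀ d, IsOver d ↔ ((φ d).2 = 1 ∨ (φ d).2 = 3)) ∧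
    ∀ d, FollowFront w l (φ d) (φ (D.opp d))

/-- An orientation of a front: `o h` says that the strand is oriented away from the singular
point along the half-edge `h`. -/
def IsOrientation (w : List Event) (l : List (HE × HE)) (o : HE → Bool) : Prop :=
  (∀ a b, Seg l a b → o b = !o a) ∧ ∀ a b, Seg l a b → o (passThru w a) = !o a

/-- The sign of the crossing number `e`: it is `+1` if both strands are oriented to the right
or both to the left, and `-1` otherwise. -/
def crossingSign (o : HE → Bool) (e : ℕ) : ℤ := if o (e, 3) = o (e, 0) then 1 else -1

open Classical in
/-- The writhe of the oriented front: the sum of the signs of its crossings. -/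
noncomputable def writhe (w : List Event) (o : HE → Bool) : ℤ :=
  ∑ e ∈ (Finset.range w.length).filter (fun e => IsCrossing w e), crossingSign o e

open Classical in
/-- The number of cusps of a front. -/
noncomputable def cusps (w : List Event) : ℕ :=
  ((Finset.range w.length).filter (fun e => ¬ IsCrossing w e)).card

/-- The Thurston-Bennequin invariant of the oriented front: the writhe minus half the number
of cusps. -/
noncomputable def tb (w : List Event) (o : HE → Bool) : ℚ := writhe w o - (cusps w : ℚ) / 2

end Q174.HF
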