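import Pool.Agent.Q174.HF.Check

/-! # Criteria for verifying concrete fronts -/

namespace Q174.HF

/-- Boolean version of `IsCrossing`. -/
def crossB (w : List Event) (e : ℕ) : Bool :=
  match w[e]? with
  | some (.cross _) => true
  | _ => false

theorem crossB_iff (w : List Event) (e : ℕ) : crossB w e = true ↔ IsCrossing w e := by
  unfold IsCrossing crossB
  cases h : w[e]? with
  | none => simp
  | some v => cases v <;> simp

instance (w : List Event) (e : ℕ) : Decidable (IsCrossing w e) :=
  decidable_of_iff (crossB w e = true) (crossB_iff w e)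

/-- Computing the strand segments. -/
def sweep : ℕ → List Event → List HE → Option (List (HE × HE))
  | _, [], [] => some []
  | _, [], _ :: _ => none
  | e, .left i :: w, s =>
    if i ≤ s.length then sweep (e + 1) w (s.take i ++ (e, 3) :: (e, 0) :: s.drop i) else none
  | e, .cross i :: w, s =>
    match s.drop i with
    | a :: b :: t =>
      (sweep (e + 1) w (s.take i ++ (e, 3) :: (e, 0) :: t)).map
        (fun l => (a, (e, 2)) :: (b, (e, 1)) :: l)
    | _ => none
  | e, .right i :: w, s =>
    match s.drop i with
    | a :: b :: t =>
      (sweep (e + 1) w (s.take i ++ t)).map (fun l => (a, (e, 2)) :: (b, (e, 1)) :: l)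
    | _ => none

theorem length_take_of_drop {s : List HE} {i : ℕ} {a b : HE} {t : List HE}
    (h : s.drop i = a :: b :: t) : (s.take i).length = i := by
  rw [List.length_take, min_eq_left_iff]
  by_contra hcon
  rw [List.drop_eq_nil_of_le (by omega)] at h
  simp at h

theorem sweep_sound (w : List Event) : ∀ (e : ℕ) (s : List HE) (l : List (HE × HE)),
    sweep e w s = some l → Sweep e w s l := by
  induction w with
  | nil =>
    intro e s l h
    cases s with
    | nil =>
      rw [sweep, Option.some.injEq] at h
      rw [← h]
      exact Sweep.done e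
    | cons a s => simp [sweep] at h
  | cons v w ih =>
    intro e s l h
    cases v with
    | left i =>
      rw [sweep] at h
      split_ifs at h with h1
      have h2 := Sweep.left e i w (s.take i) (s.drop i) l (by simp [h1]) (ih _ _ _ h)
      rwa [List.take_append_drop] at h2
    | cross i =>
      rw [sweep] at h
      split at h
      · next a b t hd =>
        rw [Option.map_eq_some_iff] at h
        obtain ⟨l', hl', rfl⟩ := h
        have h2 := Sweep.cross e i w (s.take i) t a b l' (length_take_of_drop hd)
          (ih _ _ _ hl')
        rwa [← hd, List.take_append_drop] at h2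
      · simp at h
    | right i =>
      rw [sweep] at h
      split at h
      · next a b t hd =>
        rw [Option.map_eq_some_iff] at h
        obtain ⟨l', hl', rfl⟩ := h
        have h2 := Sweep.right e i w (s.take i) t a b l' (length_take_of_drop hd)
          (ih _ _ _ hl')
        rwa [← hd, List.take_append_drop] at h2
      · simp at h

/-- Computable version of `passThru`. -/
def passC (w : List Event) (h : HE) : HE :=
  if IsCrossing w h.1 then (h.1, h.2 + 2) else (h.1, 3 - h.2)

theorem passThru_eq (w : List Event) (h : HE) : passThru w h = passC w h := by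
  unfold passThru passC
  by_cases hc : IsCrossing w h.1
  · rw [if_pos hc, if_pos hc]
  · rw [if_neg hc, if_neg hc]

theorem passC_passC (w : List Event) (h : HE) : passC w (passC w h) = h := by
  obtain ⟨e, k⟩ := h
  unfold passC
  by_cases hc : IsCrossing w e
  · simp only [hc, if_true, Prod.mk.injEq, true_and]
    revert k; decide
  · simp only [hc, if_false, Prod.mk.injEq, true_and]
    revert k; decide

theorem Seg.symm {l : List (HE × HE)} {a b : HE} (h : Seg l a b) : Seg l b a := Or.symm h

instance (l : List (HE × HE)) (a b : HE) : Decidable (Seg l a b) :=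
  inferInstanceAs (Decidable ((a, b) ∈ l ∨ (b, a) ∈ l))

/-- A list of segments travelled one after the other, starting with the half-edge `a`. -/
def chainOK (w : List Event) (l : List (HE × HE)) : HE → List (HE × HE) → Bool
  | _, [] => true
  | a, (x, y) :: q => decide (a = x) && decide (Seg l x y) && chainOK w l (passC w y) q

/-- Half-edges agreeing with `f` along a chain. -/
theorem chain_mem {w : List Event} {l : List (HE × HE)} (S : Set HE)
    (h1 : ∀ a b, Seg l a b → a ∈ S → b ∈ S)
    (h2 : ∀ a b, Seg l a b → a ∈ S → passThru w a ∈ S) :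
    ∀ (q : List (HE × HE)) (a : HE), chainOK w l a q = true → a ∈ S →
      ∀ p ∈ q, p.1 ∈ S ∧ p.2 ∈ S := by
  intro q
  induction q with
  | nil => intro a _ _ p hp; simp at hp
  | cons p q ih =>
    obtain ⟨x, y⟩ := p
    intro a h ha r hr
    rw [chainOK, Bool.and_eq_true, Bool.and_eq_true, decide_eq_true_eq, decide_eq_true_eq] at h
    obtain ⟨⟨rfl, hs⟩, hq⟩ := h
    have hy := h1 _ _ hs ha
    rw [List.mem_cons] at hr
    rcases hr with rfl | hr
    · exact ⟨ha, hy⟩
    · refine ih _ hq ?_ r hr
      rw [← passThru_eq]
      exact h2 _ _ hs.symm hy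

/-- If some member of a chain lies in `S` then so does the half-edge following the chain. -/
theorem chain_last {w : List Event} {l : List (HE × HE)} (S : Set HE)
    (h1 : ∀ a b, Seg l a b → a ∈ S → b ∈ S)
    (h2 : ∀ a b, Seg l a b → a ∈ S → passThru w a ∈ S) (e : HE) :
    ∀ (q : List (HE × HE)) (a : HE), chainOK w l a q = true →
      (∀ p, q.getLast? = some p → passC w p.2 = e) →
      ∀ p ∈ q, (p.1 ∈ S ∨ p.2 ∈ S) → e ∈ S := by
  intro q
  induction q with
  | nil => intro a _ _ p hp; simp at hp
  | cons p q ih =>
    obtain ⟨x, y⟩ := p
    intro a h hl r hr hrS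
    rw [chainOK, Bool.and_eq_true, Bool.and_eq_true, decide_eq_true_eq, decide_eq_true_eq] at h
    obtain ⟨⟨rfl, hs⟩, hq⟩ := h
    rw [List.mem_cons] at hr
    rcases hr with rfl | hr
    · have hy : y ∈ S := by
        rcases hrS with h3 | h3
        · exact h1 _ _ hs h3
        · exact h3
      have hy2 : passC w y ∈ S := by
        rw [← passThru_eq]; exact h2 _ _ hs.symm hy
      cases q with
      | nil =>
        have := hl (a, y) (by simp)
        rw [← this]; exact hy2
      | cons p' q' =>
        obtain ⟨x', y'⟩ := p'
        refine ih _ hq (fun p hp => hl p (by simpa using hp)) (x', y') (by simp) ?_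
        rw [chainOK, Bool.and_eq_true, Bool.and_eq_true, decide_eq_true_eq,
          decide_eq_true_eq] at hq
        obtain ⟨⟨h4, _⟩, _⟩ := hq
        left
        change x' ∈ S
        rw [← h4]; exact hy2
    · cases q with
      | nil => simp at hr
      | cons p' q' =>
        exact ih _ hq (fun p hp => hl p (by simpa using hp)) r hr hrS

theorem isKnotFront_of_check (w : List Event) (l q : List (HE × HE)) (a : HE)
    (hsw : sweep 0 w [] = some l) (hne : w ≠ []) (hq : chainOK w l a q = true)
    (hlast : (q.getLast?).map (fun p => passC w p.2) = some a)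
    (hcov : ∀ p ∈ l, p ∈ q ∨ (p.2, p.1) ∈ q) : IsKnotFront w l := by
  refine ⟨sweep_sound _ _ _ _ hsw, hne, ?_⟩
  intro S hS h1 h2
  have hcov' : ∀ x y, Seg l x y → (x, y) ∈ q ∨ (y, x) ∈ q := by
    intro x y hxy
    rcases hxy with h | h
    · exact hcov _ h
    · exact (hcov _ h).symm
  have haS : a ∈ S := by
    obtain ⟨x, y, hxy, hx⟩ := hS
    have hl : ∀ p, q.getLast? = some p → passC w p.2 = a := by
      intro p hp
      rw [hp] at hlast
      simpa using hlast
    rcases hcov' x y hxy with h | h
    · exact chain_last S h1 h2 a q a hq hl _ h (Or.inl hx)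
    · exact chain_last S h1 h2 a q a hq hl _ h (Or.inr hx)
  intro x y hxy
  rcases hcov' x y hxy with h | h
  · exact (chain_mem S h1 h2 q a hq haS _ h).1
  · exact (chain_mem S h1 h2 q a hq haS _ h).2

/-! ### The resolution -/

/-- The other end of the segment of `a`. -/
def partner (l : List (HE × HE)) (a : HE) : Option HE :=
  match l.find? (fun p => decide (p.1 = a)) with
  | some p => some p.2
  | none =>
    match l.find? (fun p => decide (p.2 = a)) with
    | some p => some p.1
    | none => none

theorem seg_of_partner {l : List (HE × HE)} {a b : HE} (h : partner l a = some b) :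
    Seg l a b := by
  unfold partner at h
  split at h
  · next p hp =>
    have h1 := List.mem_of_find?_eq_some hp
    have h2 := List.find?_some hp
    simp only [decide_eq_true_eq] at h2
    simp only [Option.some.injEq] at h
    left
    rw [← h2, ← h]
    exact h1
  · split at h
    · next p hp =>
      have h1 := List.mem_of_find?_eq_some hp
      have h2 := List.find?_some hp
      simp only [decide_eq_true_eq] at h2
      simp only [Option.some.injEq] at h
      right
      rw [← h2, ← h]
      exact h1
    · simp at h

/-- Computing where a strand leads through cusps. -/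
def followC (w : List Event) (l : List (HE × HE)) : ℕ → HE → Option HE
  | 0, _ => none
  | k + 1, a =>
    match partner l a with
    | none => none
    | some b => if IsCrossing w b.1 then some b else followC w l k (passC w b)

theorem followFront_of_followC {w : List Event} {l : List (HE × HE)} (k : ℕ) :
    ∀ a b, followC w l k a = some b → FollowFront w l a b := by
  induction k with
  | zero => intro a b h; simp [followC] at h
  | succ k ih =>
    intro a b h
    rw [followC] at h
    split at h
    · simp at h
    · next c hc =>
      split_ifs at h with h1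
      · simp only [Option.some.injEq] at h
        rw [← h]
        exact FollowFront.stop a c (seg_of_partner hc) h1
      · refine FollowFront.pass a c b (seg_of_partner hc) h1 ?_
        rw [passThru_eq]
        exact ih _ _ h

theorem isResolution_of_check (w : List Event) (l : List (HE × HE)) {n : ℕ}
    {o : Dart n → Dart n} {h1 h2 h3 h4} (ev : Fin n → ℕ)
    (hinj : ∀ a b, ev a = ev b → a = b)
    (hr : ∀ e : ℕ, e < w.length → ((∃ v, ev v = e) ↔ IsCrossing w e))
    (hev : ∀ v, ev v < w.length) (k : ℕ)
    (hf : ∀ a b, followC w l k (ev a, b) = some (ev (o (a, b)).1, (o (a, b)).2)) :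
    IsResolution w l ⟨n, o, h1, h2, h3, h4⟩ := by
  refine ⟨fun d => (ev d.1, d.2), ?_, ?_, fun _ => rfl, fun _ => Iff.rfl, ?_⟩
  · rintro ⟨a, b⟩ ⟨c, d⟩ h
    simp only [Prod.mk.injEq] at h
    rw [Prod.mk.injEq]
    exact ⟨hinj _ _ h.1, h.2⟩
  · rintro ⟨e, k⟩
    simp only [Set.mem_range, Prod.exists, Prod.mk.injEq]
    constructor
    · rintro ⟨a, b, h5, h6⟩
      rw [← h5]
      exact (hr _ (hev a)).1 ⟨a, rfl⟩
    · intro h5
      have he : e < w.length := by
        obtain ⟨i, hi⟩ := h5
        by_contra hcon
        rw [List.getElem?_eq_none (by omega)] at hi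
        simp at hi
      obtain ⟨v, hv⟩ := (hr e he).2 h5
      exact ⟨v, k, hv, rfl⟩
  · intro d
    exact followFront_of_followC k _ _ (hf d.1 d.2)

/-! ### Orientation and the Thurston-Bennequin invariant -/

theorem isOrientation_of_check (w : List Event) (l : List (HE × HE)) (o : HE → Bool)
    (h : ∀ p ∈ l, o p.2 = (!o p.1) ∧ o (passC w p.1) = (!o p.1) ∧
      o (passC w p.2) = (!o p.2)) : IsOrientation w l o := by
  refine ⟨?_, ?_⟩
  · intro a b hab
    rcases hab with h1 | h1
    · exact (h _ h1).1
    · have := (h _ h1).1
      change o a = !o b at this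
      rw [this, Bool.not_not]
  · intro a b hab
    rw [passThru_eq]
    rcases hab with h1 | h1
    · exact (h _ h1).2.1
    · exact (h _ h1).2.2

/-- Two orientations of the same knot front agree up to a global reversal. -/
theorem orientation_unique {w : List Event} {l : List (HE × HE)} (hk : IsKnotFront w l)
    {o o' : HE → Bool} (ho : IsOrientation w l o) (ho' : IsOrientation w l o') :
    ∃ c : Bool, ∀ a b, Seg l a b → o' a = xor (o a) c := by
  by_cases hl : ∃ a b, Seg l a b
  · obtain ⟨a, b, hab⟩ := hl
    refine ⟨xor (o a) (o' a), hk.knot {h | o' h = xor (o h) (xor (o a) (o' a))}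
      ⟨a, b, hab, ?_⟩ ?_ ?_⟩
    · change o' a = xor (o a) (xor (o a) (o' a))
      cases o a <;> cases o' a <;> rfl
    · intro x y hxy hx
      change o' x = xor (o x) (xor (o a) (o' a)) at hx
      change o' y = xor (o y) (xor (o a) (o' a))
      rw [ho.1 x y hxy, ho'.1 x y hxy, hx]
      cases o x <;> cases o a <;> cases o' a <;> rfl
    · intro x y hxy hx
      change o' x = xor (o x) (xor (o a) (o' a)) at hx
      change o' (passThru w x) = xor (o (passThru w x)) (xor (o a) (o' a))
      rw [ho.2 x y hxy, ho'.2 x y hxy, hx]
      cases o x <;> cases o a <;> cases o' a <;> rfl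
  · exact ⟨false, fun a b hab => absurd ⟨a, b, hab⟩ hl⟩

theorem writhe_eq_list (w : List Event) (o : HE → Bool) :
    writhe w o = (((List.range w.length).filter (crossB w)).map (crossingSign o)).sum := by
  rw [← List.sum_toFinset _ (List.nodup_range.filter _)]
  unfold writhe
  congr 1
  ext e
  simp [← crossB_iff]

theorem cusps_eq_list (w : List Event) :
    cusps w = ((List.range w.length).filter (fun e => !crossB w e)).length := by
  rw [← List.toFinset_card_of_nodup (List.nodup_range.filter _)]
  unfold cusps
  congr 1
  ext e
  simp [← crossB_iff]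

theorem writhe_congr {w : List Event} {l : List (HE × HE)} (hk : IsKnotFront w l)
    (hends : ∀ e < w.length, IsCrossing w e → (∃ b, Seg l (e, 3) b) ∧ ∃ b, Seg l (e, 0) b)
    {o o' : HE → Bool} (ho : IsOrientation w l o) (ho' : IsOrientation w l o') :
    writhe w o' = writhe w o := by
  obtain ⟨c, hc⟩ := orientation_unique hk ho ho'
  unfold writhe
  refine Finset.sum_congr rfl fun e he => ?_
  simp only [Finset.mem_filter, Finset.mem_range] at he
  obtain ⟨⟨b, hb⟩, ⟨b', hb'⟩⟩ := hends e he.1 he.2
  simp only [crossingSign]
  rw [hc _ _ hb, hc _ _ hb']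
  have : (xor (o (e, 3)) c = xor (o (e, 0)) c) ↔ (o (e, 3) = o (e, 0)) := by
    cases o (e, 3) <;> cases o (e, 0) <;> cases c <;> decide
  simp only [this]

end Q174.HF
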