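import Pool.Agent.Q174.HF.Check

/-! # A criterion for primality -/

namespace Q174.HF

/-- All half-edges of a diagram with `n` crossings. -/
def dartList (n : ℕ) : List (Dart n) :=
  (List.finRange n).flatMap (fun v => [(v, 0), (v, 1), (v, 2), (v, 3)])

theorem mem_dartList {n : ℕ} (d : Dart n) : d ∈ dartList n := by
  obtain ⟨v, k⟩ := d
  rw [dartList, List.mem_flatMap]
  refine ⟨v, List.mem_finRange v, ?_⟩
  fin_cases k <;> simp

theorem nodup_dartList (n : ℕ) : (dartList n).Nodup := by
  rw [dartList, List.nodup_flatMap]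
  refine ⟨?_, ?_⟩
  · intro v _
    simp
  · have h := List.nodup_finRange n
    rw [List.nodup_iff_pairwise_ne] at h
    refine h.imp ?_
    intro a b hab
    rw [Function.onFun, List.disjoint_left]
    intro x hx hy
    simp only [List.mem_cons, List.not_mem_nil, or_false] at hx hy
    apply hab
    rcases hx with rfl | rfl | rfl | rfl <;> rcases hy with h | h | h | h <;>
      exact (Prod.mk.injEq _ _ _ _ ▸ h).1

/-- The number of edges joining the crossings in the set coded by `M` to the others, where
`ps` lists the crossings at the two ends of the half-edges. -/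
def cutCount (ps : List (ℕ × ℕ)) (M : ℕ) : ℕ :=
  ps.countP (fun p => M.testBit p.1 && !M.testBit p.2)

theorem isPrime_of_check {n : ℕ} {o : Dart n → Dart n} {h1 h2 h3 h4} (ps : List (ℕ × ℕ))
    (hps : (dartList n).map (fun d => (d.1.val, (o d).1.val)) = ps)
    (h : ∀ M < 2 ^ n, cutCount ps M ≠ 2) :
    Diagram.IsPrime ⟨n, o, h1, h2, h3, h4⟩ := by
  classical
  rintro ⟨A, -, -, hA⟩
  change Set (Fin n) at A
  let M : ℕ := Nat.ofBits (fun v : Fin n => decide (v ∈ A))
  have hM : ∀ v : Fin n, M.testBit v.val = decide (v ∈ A) := by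
    intro v
    rw [Nat.testBit_ofBits_lt _ _ v.2]
  have hM2 : M < 2 ^ n := Nat.ofBits_lt_two_pow _
  apply h M hM2
  rw [← hA]
  change _ = ({d : Dart n | d.1 ∈ A ∧ (o d).1 ∉ A}).ncard
  have e : {d : Dart n | d.1 ∈ A ∧ (o d).1 ∉ A} =
      ↑((dartList n).filter (fun d => decide (d.1 ∈ A ∧ (o d).1 ∉ A))).toFinset := by
    ext d
    simp [mem_dartList]
  rw [e, Set.ncard_coe_finset, List.toFinset_card_of_nodup ((nodup_dartList n).filter _),
    cutCount, ← hps, List.countP_map, List.countP_eq_length_filter]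
  congr 2
  ext d
  simp only [Function.comp, hM]
  by_cases h3 : d.1 ∈ A <;> by_cases h4 : (o d).1 ∈ A <;> simp [h3, h4]

/-- Checking by bisection that no number `M` with `lo ≤ M < lo + 2 ^ j` codes a set of crossings
joined to the others by exactly two edges; sets for which already the crossings with number at
least `j` give rise to more than two such edges are skipped. -/
def search (ps : List (ℕ × ℕ)) : ℕ → ℕ → Bool
  | 0, lo => cutCount ps lo != 2
  | j + 1, lo =>
    if 2 < cutCount (ps.filter (fun p => decide (j + 1 ≤ p.1) && decide (j + 1 ≤ p.2))) lo then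
      true
    else search ps j lo && search ps j (lo + 2 ^ j)

theorem testBit_congr {j lo M : ℕ} (hlo : 2 ^ j ∣ lo) (h1 : lo ≤ M) (h2 : M < lo + 2 ^ j)
    {i : ℕ} (hi : j ≤ i) : M.testBit i = lo.testBit i := by
  have h3 : M / 2 ^ j = lo / 2 ^ j := by
    obtain ⟨c, rfl⟩ := hlo
    have hp : 0 < 2 ^ j := Nat.two_pow_pos j
    rw [Nat.mul_div_cancel_left _ hp]
    apply Nat.div_eq_of_lt_le
    · rw [mul_comm]; exact h1
    · rw [Nat.succ_mul, mul_comm]; exact h2
  obtain ⟨k, rfl⟩ := Nat.exists_eq_add_of_le hi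
  rw [add_comm j k, ← Nat.testBit_div_two_pow, ← Nat.testBit_div_two_pow, h3]

theorem of_search {ps : List (ℕ × ℕ)} (j : ℕ) : ∀ lo, 2 ^ j ∣ lo → search ps j lo = true →
    ∀ M, lo ≤ M → M < lo + 2 ^ j → cutCount ps M ≠ 2 := by
  induction j with
  | zero =>
    intro lo _ h M h1 h2
    have : M = lo := by rw [pow_zero] at h2; omega
    rw [this]
    simpa [search] using h
  | succ j ih =>
    intro lo hd h M h1 h2
    rw [search] at h
    split_ifs at h with h3
    · have h4 : cutCount (ps.filter (fun p => decide (j + 1 ≤ p.1) && decide (j + 1 ≤ p.2))) lo ≤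
          cutCount ps M := by
        unfold cutCount
        rw [List.countP_filter]
        apply List.countP_mono_left
        intro p _ hp
        simp only [Bool.and_eq_true, decide_eq_true_eq] at hp ⊢
        obtain ⟨⟨h5, h6⟩, h7, h8⟩ := hp
        rw [testBit_congr hd h1 h2 h7, testBit_congr hd h1 h2 h8]
        exact ⟨h5, h6⟩
      omega
    · rw [Bool.and_eq_true] at h
      have hd' : 2 ^ j ∣ lo := (pow_dvd_pow 2 (Nat.le_succ j)).trans hd
      rcases Nat.lt_or_ge M (lo + 2 ^ j) with h5 | h5
      · exact ih lo hd' h.1 M h1 h5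
      · refine ih _ (Dvd.dvd.add hd' (dvd_refl _)) h.2 M h5 ?_
        rw [pow_succ] at h2
        omega

end Q174.HF
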