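import Pool.Agent.Q174.HF.Data
import Pool.Agent.Q174.HF.Front
import Pool.Agent.Q174.HF.Prime

/-! # The front -/

set_option maxRecDepth 100000

namespace Q174.HF.Ex

/-- The front: `12` crossings, `5` left cusps and `5` right cusps. -/
def word : List Event :=
  [.left 0, .left 2, .cross 1, .left 2, .cross 1, .left 2, .cross 1, .cross 0, .cross 3,
   .right 2, .cross 1, .cross 1, .cross 2, .cross 3, .right 4, .left 2, .cross 1, .cross 3,
   .right 2, .cross 1, .right 0, .right 0]

/-- The strand segments of the front. -/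
def segs : List (HE × HE) :=
  [((0, 0), (2, 2)), ((1, 3), (2, 1)), ((2, 3), (4, 2)), ((3, 3), (4, 1)), ((4, 3), (6, 2)),
   ((5, 3), (6, 1)), ((0, 3), (7, 2)), ((6, 3), (7, 1)), ((5, 0), (8, 2)), ((4, 0), (8, 1)),
   ((6, 0), (9, 2)), ((8, 3), (9, 1)), ((7, 0), (10, 2)), ((8, 0), (10, 1)),
   ((10, 3), (11, 2)), ((10, 0), (11, 1)), ((11, 0), (12, 2)), ((3, 0), (12, 1)),
   ((12, 0), (13, 2)), ((2, 0), (13, 1)), ((13, 0), (14, 2)), ((1, 0), (14, 1)),
   ((11, 3), (16, 2)), ((15, 3), (16, 1)), ((15, 0), (17, 2)), ((12, 3), (17, 1)),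
   ((16, 0), (18, 2)), ((17, 3), (18, 1)), ((16, 3), (19, 2)), ((17, 0), (19, 1)),
   ((7, 3), (20, 2)), ((19, 3), (20, 1)), ((19, 0), (21, 2)), ((13, 3), (21, 1))]

/-- The strand segments in the order in which one travels along the front. -/
def route : List (HE × HE) :=
  [((0, 0), (2, 2)), ((2, 0), (13, 1)), ((13, 3), (21, 1)), ((21, 2), (19, 0)),
   ((19, 2), (16, 3)), ((16, 1), (15, 3)), ((15, 0), (17, 2)), ((17, 0), (19, 1)),
   ((19, 3), (20, 1)), ((20, 2), (7, 3)), ((7, 1), (6, 3)), ((6, 1), (5, 3)), ((5, 0), (8, 2)),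
   ((8, 0), (10, 1)), ((10, 3), (11, 2)), ((11, 0), (12, 2)), ((12, 0), (13, 2)),
   ((13, 0), (14, 2)), ((14, 1), (1, 0)), ((1, 3), (2, 1)), ((2, 3), (4, 2)), ((4, 0), (8, 1)),
   ((8, 3), (9, 1)), ((9, 2), (6, 0)), ((6, 2), (4, 3)), ((4, 1), (3, 3)), ((3, 0), (12, 1)),
   ((12, 3), (17, 1)), ((17, 3), (18, 1)), ((18, 2), (16, 0)), ((16, 2), (11, 3)),
   ((11, 1), (10, 0)), ((10, 2), (7, 0)), ((7, 2), (0, 3))]

theorem isKnotFront : IsKnotFront word segs :=
  isKnotFront_of_check word segs route (0, 0) (by decide) (by decide) (by decide) (by decide) (by decide)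

/-- The positions of the crossings. -/
def pos : Fin 12 → ℕ := ![2, 4, 6, 7, 8, 10, 11, 12, 13, 16, 17, 19]

theorem isResolution : IsResolution word segs D0 :=
  isResolution_of_check word segs (n := 12) pos (by decide) (by decide) (by decide) 6 (by decide)

/-- The half-edges along which one leaves. -/
def outs : List HE :=
  [(0, 0), (2, 0), (13, 3), (21, 2), (19, 2), (16, 1), (15, 0), (17, 0), (19, 3), (20, 2),
   (7, 1), (6, 1), (5, 0), (8, 0), (10, 3), (11, 0), (12, 0), (13, 0), (14, 1), (1, 3), (2, 3),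
   (4, 0), (8, 3), (9, 2), (6, 2), (4, 1), (3, 0), (12, 3), (17, 3), (18, 2), (16, 2), (11, 1),
   (10, 2), (7, 2)]

/-- The orientation. -/
def ori (h : HE) : Bool := decide (h ∈ outs)

theorem isOrientation : IsOrientation word segs ori :=
  isOrientation_of_check word segs ori (by decide)

theorem writhe_ori : writhe word ori = 4 := by
  rw [writhe_eq_list]
  decide

theorem writhe_eq {o : HE → Bool} (ho : IsOrientation word segs o) : writhe word o = 4 := by
  rw [writhe_congr isKnotFront ?_ isOrientation ho, writhe_ori]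
  intro e he hc
  have h : ∀ e < 22, IsCrossing word e → (partner segs (e, 3)).isSome ∧ (partner segs (e, 0)).isSome := by
    decide
  obtain ⟨h1, h2⟩ := h e he hc
  obtain ⟨b, hb⟩ := Option.isSome_iff_exists.1 h1
  obtain ⟨c, hc⟩ := Option.isSome_iff_exists.1 h2
  exact ⟨⟨b, seg_of_partner hb⟩, ⟨c, seg_of_partner hc⟩⟩

theorem cusps_word : cusps word = 10 := by
  rw [cusps_eq_list]
  decide

theorem tb_eq {o : HE → Bool} (ho : IsOrientation word segs o) : tb word o = -1 := by
  rw [tb, writhe_eq ho, cusps_word]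
  norm_num

/-- The crossings at the ends of the half-edges. -/
def ends : List (ℕ × ℕ) :=
  [(0, 8), (0, 8), (0, 3), (0, 1), (1, 4), (1, 7), (1, 0), (1, 2), (2, 4), (2, 4), (2, 1),
   (2, 3), (3, 5), (3, 2), (3, 0), (3, 11), (4, 5), (4, 1), (4, 2), (4, 2), (5, 6), (5, 4),
   (5, 3), (5, 6), (6, 7), (6, 5), (6, 5), (6, 9), (7, 8), (7, 1), (7, 6), (7, 10), (8, 0),
   (8, 0), (8, 7), (8, 11), (9, 10), (9, 10), (9, 6), (9, 11), (10, 11), (10, 7), (10, 9),
   (10, 9), (11, 8), (11, 10), (11, 9), (11, 3)]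

theorem cut_check : search ends 12 0 = true := by decide +kernel

theorem isPrime : D0.IsPrime := by
  refine isPrime_of_check (n := 12) ends (by decide) ?_
  intro M hM
  exact of_search 12 0 (dvd_zero _) cut_check M (Nat.zero_le _) (by simpa using hM)

end Q174.HF.Ex
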